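import Pool.Agent.H71.CQ.Basic

/-!
# Measurable enumeration of substructures (row SUB)
-/

set_option autoImplicit false

open Set

namespace Pool.Agent.H94.CQ

open Pool.Agent.H71.CQ

/-- the enumeration of an infinite subset of the natural numbers is measurable -/
theorem meas_nth {Ω : Type} [MeasurableSpace Ω] (P : Ω → ℕ → Prop)
    (hP : ∀ k, MeasurableSet {u | P u k}) (hi : ∀ u, (Set.ofPred (P u)).Infinite) (n : ℕ) :
    Measurable fun u => Nat.nth (P u) n := by
  classical
  have hcnt : ∀ k, Measurable fun u => Nat.count (P u) k := by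
    intro k
    induction k with
    | zero =>
      simp only [Nat.count_zero]
      exact measurable_const
    | succ k ih =>
      simp only [Nat.count_succ]
      exact ih.add (Measurable.ite (hP k) measurable_const measurable_const)
  refine measurable_to_countable' fun k => ?_
  have h2 : (fun u => Nat.nth (P u) n) ⁻¹' {k} = {u | P u k} ∩ {u | Nat.count (P u) k = n} := by
    ext u
    constructor
    · intro h
      have h1 : Nat.nth (P u) n = k := h
      have h3 := Nat.nth_mem_of_infinite (hi u) n
      have h4 := Nat.count_nth_of_infinite (hi u) n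
      rw [h1] at h3 h4
      exact ⟨h3, h4⟩
    · rintro ⟨h3, h4⟩
      have h5 := Nat.nth_count (p := P u) h3
      have h6 : Nat.count (P u) k = n := h4
      rw [h6] at h5
      exact h5
  rw [h2]
  exact (hP k).inter ((hcnt k) (measurableSet_singleton n))

theorem pf_SUB : T_SUB := by
  intro L _ _ Ω _ V _ E A hA hi
  classical
  rcases isEmpty_or_nonempty Ω with hO | ⟨⟨u0⟩⟩
  · refine ⟨fun u => hO.elim u, ?_, fun u => hO.elim u⟩
    intro s _
    rw [Set.eq_empty_of_isEmpty ((fun u : Ω => (hO.elim u : ℕ → ℕ → L)) ⁻¹' s)]
    exact MeasurableSet.empty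
  · have hV : Infinite V := by
      by_contra hcon
      rw [not_infinite_iff_finite] at hcon
      exact hi u0 (Set.toFinite _)
    obtain ⟨c⟩ : Nonempty (V ≃ ℕ) := nonempty_equiv_of_countable
    let P : Ω → ℕ → Prop := fun u k => c.symm k ∈ A u
    have hPi : ∀ u, (Set.ofPred (P u)).Infinite := by
      intro u
      have h1 : Set.ofPred (P u) = c.symm ⁻¹' A u := rfl
      rw [h1]
      exact (hi u).preimage (by
        intro x _
        exact ⟨c x, c.symm_apply_apply x⟩)
    have hPm : ∀ k, MeasurableSet {u | P u k} := fun k => hA _
    refine ⟨fun u i j => E (c.symm (Nat.nth (P u) i)) (c.symm (Nat.nth (P u) j)), ?_, ?_⟩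
    · refine measurable_pi_lambda _ fun i => measurable_pi_lambda _ fun j => ?_
      have h1 : Measurable fun u => (Nat.nth (P u) i, Nat.nth (P u) j) :=
        (meas_nth P hPm hPi i).prodMk (meas_nth P hPm hPi j)
      have h2 : Measurable fun z : ℕ × ℕ => E (c.symm z.1) (c.symm z.2) :=
        measurable_of_countable _
      exact h2.comp h1
    · intro u
      let g : ℕ → A u := fun i => ⟨c.symm (Nat.nth (P u) i), Nat.nth_mem_of_infinite (hPi u) i⟩
      have hg : Function.Bijective g := by
        constructor
        · intro i j h
          have h1 : c.symm (Nat.nth (P u) i) = c.symm (Nat.nth (P u) j) := congrArg Subtype.val h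
          exact Nat.nth_injective (hPi u) (c.symm.injective h1)
        · rintro ⟨x, hx⟩
          have h1 : c x ∈ Set.range (Nat.nth (P u)) := by
            rw [Nat.range_nth_of_infinite (hPi u)]
            change c.symm (c x) ∈ A u
            rw [c.symm_apply_apply]
            exact hx
          obtain ⟨i, hi'⟩ := h1
          refine ⟨i, Subtype.ext ?_⟩
          change c.symm (Nat.nth (P u) i) = x
          rw [hi', c.symm_apply_apply]
      exact ⟨Equiv.ofBijective g hg, fun x y => rfl⟩

end Pool.Agent.H94.CQ
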